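import Mathlib
import Pool.Agent.W192.HK.Parts
import Pool.Agent.W346.CM.TAIL

/-!
HK-TAIL: the tail sum over the ideals.  Adaptation of the file of helper346.
-/

set_option autoImplicit false

namespace Pool.Agent.W883.HK

open Pool.Agent.W192.HK
open Pool.Agent.W346.CM (case1 case2)

/-- the block estimate -/
theorem block (hB : H_BASIC) (hC : H_COUNT) {R : Subring ℂ} {ω : ℂ} (hR : QR R ω) {ε : ℝ}
    (hε : 0 < ε) (hε4 : ε < 1 / 12) :
    ∃ K : ℝ, 0 < K ∧ ∀ (c : Ideal R) (χ : Ideal R → ℂ), RC c χ → ∀ Q : ℝ, Q = nm c →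
      ∀ d : ℕ, Od χ d → Q ^ (2 / 3 + ε) ≤ d → ∀ e : ℕ, e ∣ d →
      ∀ Y : ℝ, 1 ≤ Y → Q ^ (ε / 2) < Y →
      (e : ℝ) * cntI χ (d / e) Y * Y ^ (-1 / 2 + ε / 16) *
        Real.exp (-(Y / (2 * Q ^ (2 / 3 + ε / 2)))) ≤
        K * (d * Q ^ (-(ε ^ 2 / 4))) * Y ^ (-(ε ^ 2 / 4) / 2) := by
  have hη : 0 < ε / 16 := by positivity
  have hδ : 0 < ε ^ 2 / 4 := by positivity
  have hδ1 : ε ^ 2 / 4 ≤ ε / 48 := by nlinarith
  obtain ⟨J, hJdef⟩ : ∃ J : ℕ, J = ⌈2 / ε⌉₊ := ⟨_, rfl⟩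
  have hJ1 : 2 ≤ ε * J := by
    have h1 : 2 / ε ≤ J := by rw [hJdef]; exact Nat.le_ceil _
    rw [div_le_iff₀ hε] at h1
    linarith
  have hJ2 : (J : ℝ) * (ε ^ 2 / 4) ≤ ε / 2 + ε / 48 := by
    have h1 : (J : ℝ) < 2 / ε + 1 := by rw [hJdef]; exact Nat.ceil_lt_add_one (by positivity)
    have h3 : (2 / ε + 1) * (ε ^ 2 / 4) = ε / 2 + ε ^ 2 / 4 := by field_simp; ring
    have h4 := mul_le_mul_of_nonneg_right h1.le hδ.le
    linarith
  have hex : ∀ j : ℕ, ∃ C : ℝ, 0 < C ∧ (1 ≤ j → ∀ (c : Ideal R) (χ : Ideal R → ℂ), RC c χ →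
      ∀ d : ℕ, Od χ d → ∀ e : ℕ, e ∣ d → ∀ y : ℝ, 1 ≤ y →
        (cntI χ (d / e) y : ℝ) ^ j ≤
          C * y ^ (ε / 16) * (y ^ j / nm c + 1) * (nm c / e)) := by
    intro j
    by_cases hj : 1 ≤ j
    · obtain ⟨C, hC0, hC1⟩ := hC R ω hR j hj (ε / 16) hη
      exact ⟨C, hC0, fun _ => hC1⟩
    · exact ⟨1, one_pos, fun h => absurd h hj⟩
  choose Cj hCj0 hCj using hex
  obtain ⟨K, hK⟩ : ∃ K : ℝ, K = 1 + ∑ j ∈ Finset.range (J + 1), Cj j := ⟨_, rfl⟩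
  have hKj : ∀ j, j ≤ J → Cj j ≤ K := by
    intro j hj
    have h1 : Cj j ≤ ∑ j ∈ Finset.range (J + 1), Cj j :=
      Finset.single_le_sum (f := Cj) (fun i _ => (hCj0 i).le) (by simp; omega)
    linarith
  have hK1 : 1 ≤ K := by
    have : 0 ≤ ∑ j ∈ Finset.range (J + 1), Cj j := Finset.sum_nonneg fun i _ => (hCj0 i).le
    linarith
  refine ⟨4 * K, by positivity, ?_⟩
  intro c χ hχ Q hQdef d hOd hd e hed Y hY1 hYB
  have hQ1 : 1 ≤ Q := by
    rw [hQdef]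
    exact (hB R ω hR).2.2.1 c hχ.ne
  have hd0 : 0 < d := hOd.pos
  have he0 : 0 < e := Nat.pos_of_dvd_of_pos hed hd0
  have he0' : (0 : ℝ) < e := by exact_mod_cast he0
  have hE : (e : ℝ) ≤ d := by exact_mod_cast Nat.le_of_dvd hd0 hed
  have hY0 : 0 < Y := by linarith
  have hQ0 : 0 < Q := by linarith
  have hEh : (e : ℝ) * (Q / e) ≤ Q := by
    rw [mul_div_cancel₀ _ he0'.ne']
  have hcK : ∀ j : ℕ, 1 ≤ j → j ≤ J → (cntI χ (d / e) Y : ℝ) ^ j ≤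
      K * Y ^ (ε / 16) * (Y ^ j / Q + 1) * (Q / e) := by
    intro j hj hjJ
    have h2 := hCj j hj c χ hχ d hOd e hed Y hY1
    rw [← hQdef] at h2
    refine h2.trans ?_
    have := hKj j hjJ
    gcongr
  have hJpos : 1 ≤ J := by
    rcases Nat.eq_zero_or_pos J with h0 | h0
    · rw [h0] at hJ1
      norm_num at hJ1
    · exact h0
  rcases le_or_gt (Q ^ (2 / 3 : ℝ)) Y with h | h
  · refine (case1 (ε := ε) (η := ε / 16) (δ := ε ^ 2 / 4) (Q := Q) (D := d) (Y := Y)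
      (c := cntI χ (d / e) Y) (E := e) (h := Q / e) (K := K) hε hε4 hη.le hδ ?_ (by linarith)
      (by linarith) hQ1 hd
      (Nat.cast_nonneg _) hE hEh (by linarith) h ?_)
    · linarith
    · have := hcK 1 le_rfl hJpos
      simpa using this
  · have hQ : (1 : ℝ) < Q := by
      rcases hQ1.eq_or_lt with h1 | h1
      · rw [← h1, Real.one_rpow] at h
        linarith
      · exact h1
    have h2 := case2 (ε := ε) (η := ε / 16) (δ := ε ^ 2 / 4) (Q := Q) (D := d) (Y := Y)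
      (c := cntI χ (d / e) Y) (E := e) (h := Q / e) (K := K) (J := J) hε hη.le hδ
      (by linarith) (by linarith) (by linarith) hQ hd
      (Nat.cast_nonneg _) (Nat.cast_nonneg _) hE hEh hK1 h hY1 hYB hcK
    have h3 : Real.exp (-(Y / (2 * Q ^ (2 / 3 + ε / 2)))) ≤ 1 := by
      rw [Real.exp_le_one_iff]
      have : 0 ≤ Y / (2 * Q ^ (2 / 3 + ε / 2)) := by positivity
      linarith
    refine le_trans ?_ h2
    exact mul_le_of_le_one_right (by positivity) h3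

open Classical in
theorem fiber_bound {R : Subring ℂ} (hfin : ∀ y : ℝ, {I : Ideal R | nm I ≤ y}.Finite)
    (χ : Ideal R → ℂ) (k : ℕ) {B Z η : ℝ} (hB : 0 < B) (hZ : 0 < Z)
    (hη : η ≤ 1 / 2) (hη0 : 0 ≤ η) (F : Finset (Ideal R)) (i : ℕ)
    (hF : ∀ I ∈ F, Nat.log 2 (Nat.card (R ⧸ I)) = i) :
    ∑ I ∈ F, (if B < nm I ∧ χ I ≠ 0 ∧ χ I ^ k = 1
      then (nm I) ^ (-1 / 2 + η) * Real.exp (-(nm I / Z)) else 0) ≤
      if B < (2 : ℝ) ^ (i + 1) then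
        2 * (cntI χ k ((2 : ℝ) ^ (i + 1)) * ((2 : ℝ) ^ (i + 1)) ^ (-1 / 2 + η) *
          Real.exp (-((2 : ℝ) ^ (i + 1) / (2 * Z)))) else 0 := by
  set nn : Ideal R → ℕ := fun I => Nat.card (R ⧸ I) with hnnd
  have hnn : ∀ I : Ideal R, nm I = nn I := fun I => rfl
  set P : Ideal R → Prop := fun I => B < nm I ∧ χ I ≠ 0 ∧ χ I ^ k = 1 with hP
  set f : Ideal R → ℝ := fun I => (nm I) ^ (-1 / 2 + η) * Real.exp (-(nm I / Z)) with hf
  set w : ℝ := ((2 : ℝ) ^ i) ^ (-1 / 2 + η) * Real.exp (-((2 : ℝ) ^ i / Z)) with hw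
  have hw0 : 0 ≤ w := by positivity
  have hpos : ∀ γ, P γ → 0 < nn γ := by
    intro γ hγ
    have h1 := hγ.1
    rw [hnn] at h1
    have : (0 : ℝ) < nn γ := hB.trans h1
    exact_mod_cast this
  have hle : ∀ γ ∈ F, P γ → f γ ≤ w := by
    intro γ hγ hγP
    have hk0 := hpos γ hγP
    have h1 : 2 ^ i ≤ nn γ := by
      rw [← hF γ hγ]; exact Nat.pow_log_le_self 2 hk0.ne'
    have h2 : (2 : ℝ) ^ i ≤ nm γ := by
      rw [hnn]; exact_mod_cast h1
    apply mul_le_mul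
    · exact Real.rpow_le_rpow_of_nonpos (by positivity) h2 (by linarith)
    · apply Real.exp_le_exp.mpr
      have : (2 : ℝ) ^ i / Z ≤ nm γ / Z := by gcongr
      linarith
    · exact (Real.exp_pos _).le
    · positivity
  have hlt : ∀ γ ∈ F, P γ → nm γ ≤ (2 : ℝ) ^ (i + 1) := by
    intro γ hγ hγP
    have h1 : nn γ < 2 ^ (i + 1) := by
      rw [← hF γ hγ]; exact Nat.lt_pow_succ_log_self (by norm_num) _
    rw [hnn]
    exact_mod_cast h1.le
  have hsum : ∑ γ ∈ F, (if P γ then f γ else 0) = ∑ γ ∈ F.filter P, f γ := by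
    rw [Finset.sum_filter]
  rw [hsum]
  split_ifs with hBi
  · have h1 : ∑ γ ∈ F.filter P, f γ ≤ (F.filter P).card * w := by
      rw [← nsmul_eq_mul]
      apply Finset.sum_le_card_nsmul
      intro k hk
      rw [Finset.mem_filter] at hk
      exact hle k hk.1 hk.2
    have h2 : (F.filter P).card ≤ cntI χ k ((2 : ℝ) ^ (i + 1)) := by
      rw [cntI, ← Set.ncard_coe_finset]
      apply Set.ncard_le_ncard
      · intro k hk
        rw [Finset.mem_coe, Finset.mem_filter] at hk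
        exact ⟨hlt k hk.1 hk.2, hk.2.2⟩
      · refine (hfin ((2 : ℝ) ^ (i + 1))).subset ?_
        intro k hk
        exact hk.1
    have h3 : w ≤ 2 * (((2 : ℝ) ^ (i + 1)) ^ (-1 / 2 + η) *
          Real.exp (-((2 : ℝ) ^ (i + 1) / (2 * Z)))) := by
      have h4 : (2 : ℝ) ^ (i + 1) / (2 * Z) = (2 : ℝ) ^ i / Z := by
        rw [pow_succ]; field_simp
      rw [h4, hw, ← mul_assoc]
      apply mul_le_mul_of_nonneg_right _ (Real.exp_pos _).le
      have h5 : ((2 : ℝ) ^ (i + 1)) ^ (-1 / 2 + η) =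
          ((2 : ℝ) ^ i) ^ (-1 / 2 + η) * (2 : ℝ) ^ (-1 / 2 + η) := by
        rw [pow_succ, Real.mul_rpow (by positivity) (by norm_num)]
      rw [h5]
      have h6 : 1 ≤ 2 * (2 : ℝ) ^ (-1 / 2 + η) := by
        have : 2 * (2 : ℝ) ^ (-1 / 2 + η) = (2 : ℝ) ^ (1 + (-1 / 2 + η)) := by
          rw [Real.rpow_add (by norm_num) 1 (-1 / 2 + η), Real.rpow_one]
        rw [this]
        exact Real.one_le_rpow (by norm_num) (by linarith)
      have h7 : 0 ≤ ((2 : ℝ) ^ i) ^ (-1 / 2 + η) := by positivity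
      nlinarith
    calc ∑ k ∈ F.filter P, f k ≤ (F.filter P).card * w := h1
      _ ≤ (cntI χ k ((2 : ℝ) ^ (i + 1)) : ℝ) * w := by
          apply mul_le_mul_of_nonneg_right _ hw0
          exact_mod_cast h2
      _ ≤ (cntI χ k ((2 : ℝ) ^ (i + 1)) : ℝ) * (2 * (((2 : ℝ) ^ (i + 1)) ^ (-1 / 2 + η) *
          Real.exp (-((2 : ℝ) ^ (i + 1) / (2 * Z))))) :=
          mul_le_mul_of_nonneg_left h3 (Nat.cast_nonneg _)
      _ = _ := by ring
  · apply le_of_eq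
    apply Finset.sum_eq_zero
    intro k hk
    rw [Finset.mem_filter] at hk
    exact absurd (lt_of_lt_of_le hk.2.1 (hlt k hk.1 hk.2)) hBi

theorem summ {R : Subring ℂ} (hs : Summable (fun I : Ideal R => (nm I) ^ (-(2 : ℝ))))
    {Z η : ℝ} (hZ : 0 < Z) (hη : η < 1 / 2) :
    Summable (fun I : Ideal R => (nm I) ^ (-1 / 2 + η) * Real.exp (-(nm I / Z))) := by
  refine Summable.of_nonneg_of_le (fun I => ?_) (fun I => ?_) (hs.mul_left (2 * Z ^ 2))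
  · have : 0 ≤ nm I := Nat.cast_nonneg _
    positivity
  · have h0 : 0 ≤ nm I := Nat.cast_nonneg _
    rcases Nat.eq_zero_or_pos (Nat.card (R ⧸ I)) with h | h
    · have h1 : nm I = 0 := by
        unfold nm; rw [h]; simp
      rw [h1, Real.zero_rpow (by linarith), Real.zero_rpow (by norm_num)]
      simp
    · have h1 : 1 ≤ nm I := by
        unfold nm; exact_mod_cast h
      have h2 : (nm I) ^ (-1 / 2 + η) ≤ 1 := Real.rpow_le_one_of_one_le_of_nonpos h1 (by linarith)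
      have hp : 0 < nm I := by linarith
      have h3 : Real.exp (-(nm I / Z)) ≤ 2 * Z ^ 2 * (nm I) ^ (-(2 : ℝ)) := by
        have hx : 0 < nm I / Z := by positivity
        have h4 := Real.quadratic_le_exp_of_nonneg hx.le
        have h5 : (nm I / Z) ^ 2 / 2 ≤ Real.exp (nm I / Z) := by linarith
        rw [Real.exp_neg]
        have h6 : 0 < (nm I / Z) ^ 2 / 2 := by positivity
        refine (inv_anti₀ h6 h5).trans (le_of_eq ?_)
        rw [Real.rpow_neg h0, Real.rpow_two]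
        field_simp
      calc (nm I) ^ (-1 / 2 + η) * Real.exp (-(nm I / Z)) ≤ 1 * Real.exp (-(nm I / Z)) :=
            mul_le_mul_of_nonneg_right h2 (Real.exp_pos _).le
        _ ≤ _ := by rw [one_mul]; exact h3

theorem h_tail (h1 : H_BASIC) (h2 : H_CNT) (h3 : H_COUNT) : H_TAIL := by
  classical
  intro R ω hR ε hε hε4
  obtain ⟨K, hK, hb⟩ := block h1 h3 hR hε hε4
  obtain ⟨hfin, hsm, -⟩ := h2 R ω hR
  have hδ : 0 < ε ^ 2 / 4 := by positivity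
  obtain ⟨δ, hδd⟩ : ∃ δ : ℝ, δ = ε ^ 2 / 4 := ⟨_, rfl⟩
  rw [← hδd] at hb hδ
  obtain ⟨r, hr⟩ : ∃ r : ℝ, r = (2 : ℝ) ^ (-δ / 2) := ⟨_, rfl⟩
  have hr0 : 0 < r := by rw [hr]; exact Real.rpow_pos_of_pos (by norm_num) _
  have hr1 : r < 1 := by
    rw [hr]; exact Real.rpow_lt_one_of_one_lt_of_neg (by norm_num) (by linarith)
  refine ⟨ε / 16, δ, 2 * K * (1 - r)⁻¹, by positivity, by linarith, hδ,
    by have := sub_pos.mpr hr1; positivity, ?_⟩
  intro c χ hχ d hOd hd e hed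
  obtain ⟨Q, hQ⟩ : ∃ Q : ℝ, Q = nm c := ⟨_, rfl⟩
  rw [← hQ] at hd ⊢
  have hQ1 : 1 ≤ Q := by
    rw [hQ]
    exact (h1 R ω hR).2.2.1 c hχ.ne
  have hQ0 : 0 < Q := by linarith
  have hB0 : 0 < Q ^ (ε / 2) := Real.rpow_pos_of_pos hQ0 _
  have hZ0 : 0 < Q ^ (2 / 3 + ε / 2) := Real.rpow_pos_of_pos hQ0 _
  refine ⟨summ (hsm 2 (by norm_num)) hZ0 (by linarith), ?_⟩
  have hblock : ∀ Y : ℝ, 1 ≤ Y → Q ^ (ε / 2) < Y →
      (e : ℝ) * cntI χ (d / e) Y * Y ^ (-1 / 2 + ε / 16) *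
        Real.exp (-(Y / (2 * Q ^ (2 / 3 + ε / 2)))) ≤
        K * (d * Q ^ (-δ)) * Y ^ (-δ / 2) := hb c χ hχ Q hQ d hOd hd e hed
  obtain ⟨B, hB⟩ : ∃ B : ℝ, B = Q ^ (ε / 2) := ⟨_, rfl⟩
  obtain ⟨Z, hZ⟩ : ∃ Z : ℝ, Z = Q ^ (2 / 3 + ε / 2) := ⟨_, rfl⟩
  rw [← hB] at hblock hB0 ⊢
  rw [← hZ] at hblock hZ0 ⊢
  obtain ⟨A, hA⟩ : ∃ A : ℝ, A = (d : ℝ) * Q ^ (-δ) := ⟨_, rfl⟩
  rw [← hA] at hblock
  have hA0 : 0 ≤ A := by rw [hA]; positivity
  have hr1' := sub_pos.mpr hr1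
  have hgoal : 2 * K * (1 - r)⁻¹ * d * Q ^ (-δ) = 2 * K * A * (1 - r)⁻¹ := by
    rw [hA]; ring
  rw [hgoal, tailI, ← tsum_mul_left]
  apply tsum_le_of_sum_le' (by positivity)
  intro u
  rw [← Finset.mul_sum]
  obtain ⟨n, hn⟩ : ∃ n : ℕ, ∀ I ∈ u, Nat.log 2 (Nat.card (R ⧸ I)) < n :=
    ⟨u.sup (fun I : Ideal R => Nat.log 2 (Nat.card (R ⧸ I))) + 1, fun I hI =>
      Nat.lt_succ_of_le (Finset.le_sup (f := fun I : Ideal R => Nat.log 2 (Nat.card (R ⧸ I))) hI)⟩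
  rw [← Finset.sum_fiberwise_of_maps_to (s := u) (t := Finset.range n)
    (g := fun I : Ideal R => Nat.log 2 (Nat.card (R ⧸ I)))
    (fun I hI => Finset.mem_range.2 (hn I hI)), Finset.mul_sum]
  have hterm : ∀ i ∈ Finset.range n, (e : ℝ) *
      (∑ I ∈ u.filter (fun I : Ideal R => Nat.log 2 (Nat.card (R ⧸ I)) = i),
        (if B < nm I ∧ χ I ≠ 0 ∧ χ I ^ (d / e) = 1
      then (nm I) ^ (-1 / 2 + ε / 16) * Real.exp (-(nm I / Z)) else 0)) ≤
      2 * K * A * r ^ i := by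
    intro i _
    have h1 := fiber_bound hfin χ (d / e) hB0 hZ0 (η := ε / 16) (by linarith) (by positivity)
      (u.filter (fun I : Ideal R => Nat.log 2 (Nat.card (R ⧸ I)) = i)) i
      (fun k hk => (Finset.mem_filter.mp hk).2)
    refine (mul_le_mul_of_nonneg_left h1 (Nat.cast_nonneg _)).trans ?_
    split_ifs with hBi
    · have h2 := hblock ((2 : ℝ) ^ (i + 1)) (one_le_pow₀ (by norm_num)) hBi
      have h3 : ((2 : ℝ) ^ (i + 1)) ^ (-δ / 2) ≤ r ^ i := by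
        have h4 : ((2 : ℝ) ^ (i + 1)) ^ (-δ / 2) = r ^ (i + 1) := by
          rw [hr, ← Real.rpow_natCast, ← Real.rpow_natCast, ← Real.rpow_mul (by norm_num),
            ← Real.rpow_mul (by norm_num), mul_comm]
        rw [h4, pow_succ]
        exact mul_le_of_le_one_right (by positivity) hr1.le
      calc _ = 2 * ((e : ℝ) * cntI χ (d / e) ((2 : ℝ) ^ (i + 1)) *
              ((2 : ℝ) ^ (i + 1)) ^ (-1 / 2 + ε / 16)
              * Real.exp (-((2 : ℝ) ^ (i + 1) / (2 * Z)))) := by ring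
        _ ≤ 2 * (K * A * ((2 : ℝ) ^ (i + 1)) ^ (-δ / 2)) := by linarith
        _ ≤ 2 * (K * A * r ^ i) := by
            have : K * A * ((2 : ℝ) ^ (i + 1)) ^ (-δ / 2) ≤ K * A * r ^ i :=
              mul_le_mul_of_nonneg_left h3 (by positivity)
            linarith
        _ = _ := by ring
    · rw [mul_zero]; positivity
  refine (Finset.sum_le_sum hterm).trans ?_
  rw [← Finset.mul_sum]
  apply mul_le_mul_of_nonneg_left _ (by positivity)
  rw [← tsum_geometric_of_lt_one hr0.le hr1]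
  exact (summable_geometric_of_lt_one hr0.le hr1).sum_le_tsum _ (fun i _ => by positivity)

end Pool.Agent.W883.HK
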